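import Mathlib

/-!
# MP_83934b: interval exchanges with flips lift to measurable permutations

The circle is `S = R/Z` (`UnitAddCircle`) with Lebesgue measure `volume`.

The canonical surjection from the group of measure preserving Lebesgue bimeasurable
permutations of the circle onto its quotient modulo null sets splits over the group of
interval exchanges with flips.

Idea of the proof.  A permutation `f` which is piecewise isometric acts on filters on `S` by
`Filter.map f`, and a finitely supported permutation fixes every filter of the form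
`map f (punctured neighbourhoods of x)`.  So the group of interval exchanges with flips acts
on the set `W` of those filters, and `x ↦ 𝓝[≠] x` is an injection of `S` in `W` which is
equivariant off finite sets.  As `W` has the cardinality of the continuum, this injection can
be changed on a null set so as to become a bijection, and one transports the action.
-/

set_option autoImplicit false

open MeasureTheory Filter Topology

namespace Pool.Agent.Results.MP_83934b_an.MeasurableLift

/-- The circle `R/Z`; its measure `volume` is Lebesgue measure, of total mass one. -/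
abbrev S : Type := UnitAddCircle

instance nullSingleton : NullSingletonClass (volume : Measure S) where
  measure_singleton := by
    intro x
    rw [← Metric.closedBall_zero, AddCircle.volume_closedBall]
    simp

/-- `f` is `y ↦ y + c` or `y ↦ -y + c` on a neighbourhood of `x`. -/
def LocIsom (f : S → S) (x : S) : Prop :=
  ∃ c : S, (∀ᶠ y in 𝓝 x, f y = y + c) ∨ (∀ᶠ y in 𝓝 x, f y = -y + c)

/-- `f` is piecewise isometric: off a finite set `F` it is locally of the form
`y ↦ y + c` or `y ↦ -y + c` (so it has this form on each of the finitely many open arcs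
that form the complement of `F`). -/
def PiecewiseIsom (f : S → S) : Prop :=
  ∃ F : Set S, F.Finite ∧ ∀ x, x ∉ F → LocIsom f x

theorem LocIsom.continuousAt {f : S → S} {x : S} (h : LocIsom f x) : ContinuousAt f x := by
  obtain ⟨c, h | h⟩ := h
  · exact ContinuousAt.congr (f := fun y => y + c) (by fun_prop) (h.mono fun y hy => hy.symm)
  · exact ContinuousAt.congr (f := fun y => -y + c) (by fun_prop) (h.mono fun y hy => hy.symm)

theorem LocIsom.comp {f g : S → S} {x : S} (hg : LocIsom g x) (hf : LocIsom f (g x)) :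
    LocIsom (fun y => f (g y)) x := by
  have hc := hg.continuousAt
  obtain ⟨c, hg⟩ := hg
  obtain ⟨d, hf⟩ := hf
  rcases hf with hf | hf <;> rcases hg with hg | hg
  · refine ⟨c + d, Or.inl ?_⟩
    filter_upwards [hc.eventually hf, hg] with y h1 h2
    rw [h1, h2, add_assoc]
  · refine ⟨c + d, Or.inr ?_⟩
    filter_upwards [hc.eventually hf, hg] with y h1 h2
    rw [h1, h2, add_assoc]
  · refine ⟨-c + d, Or.inr ?_⟩
    filter_upwards [hc.eventually hf, hg] with y h1 h2
    rw [h1, h2, neg_add, add_assoc]
  · refine ⟨-c + d, Or.inl ?_⟩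
    filter_upwards [hc.eventually hf, hg] with y h1 h2
    rw [h1, h2, neg_add, neg_neg, add_assoc]

/-- The local inverse of a permutation at the image of a good point. -/
theorem LocIsom.symm {f : Equiv.Perm S} {x : S} (hf : LocIsom f x) :
    LocIsom f.symm (f x) := by
  obtain ⟨c, hf | hf⟩ := hf
  · have hx : f x = x + c := hf.self_of_nhds
    refine ⟨-c, Or.inl ?_⟩
    have ht : Tendsto (fun w : S => w + -c) (𝓝 (f x)) (𝓝 x) := by
      have : Tendsto (fun w : S => w + -c) (𝓝 (f x)) (𝓝 (f x + -c)) :=
        (continuous_id.add continuous_const).tendsto _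
      simpa [hx] using this
    filter_upwards [ht.eventually hf] with w hw
    rw [Equiv.symm_apply_eq, hw, add_assoc, neg_add_cancel, add_zero]
  · have hx : f x = -x + c := hf.self_of_nhds
    refine ⟨c, Or.inr ?_⟩
    have ht : Tendsto (fun w : S => -w + c) (𝓝 (f x)) (𝓝 x) := by
      have : Tendsto (fun w : S => -w + c) (𝓝 (f x)) (𝓝 (-(f x) + c)) :=
        (continuous_neg.add continuous_const).tendsto _
      have e : -(f x) + c = x := by rw [hx]; abel
      rwa [e] at this
    filter_upwards [ht.eventually hf] with w hw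
    rw [Equiv.symm_apply_eq, hw]
    abel

/-- If `[0,1)` is covered by finitely many intervals (order connected sets) `I`, and if
`f` is `t ↦ t + c` or `t ↦ -t + c` (mod 1) on each of them, then `f` is piecewise isometric in the
above sense. -/
theorem piecewiseIsom_of_intervals (f : S → S) (P : Set (Set ℝ)) (hP : P.Finite)
    (hI : ∀ I ∈ P, I.OrdConnected) (hcov : Set.Ico (0 : ℝ) 1 ⊆ ⋃₀ P)
    (hf : ∀ I ∈ P, ∃ c : S, (∀ t ∈ I ∩ Set.Ico (0 : ℝ) 1, f (t : S) = (t : S) + c) ∨
      (∀ t ∈ I ∩ Set.Ico (0 : ℝ) 1, f (t : S) = -(t : S) + c)) : PiecewiseIsom f := by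
  let E : Set ℝ := {0} ∪ ((fun I : Set ℝ => sInf (I ∩ Set.Ico (0 : ℝ) 1)) '' P ∪
    (fun I : Set ℝ => sSup (I ∩ Set.Ico (0 : ℝ) 1)) '' P)
  have hE : E.Finite := (Set.finite_singleton 0).union ((hP.image _).union (hP.image _))
  refine ⟨(fun t : ℝ => (t : S)) '' E, hE.image _, ?_⟩
  intro x hx
  obtain ⟨t, ht, rfl⟩ : ∃ t ∈ Set.Ico (0 : ℝ) 1, (t : S) = x := by
    have h := (AddCircle.equivIco (1 : ℝ) 0 x).2
    refine ⟨(AddCircle.equivIco (1 : ℝ) 0 x : ℝ), by simpa using h, ?_⟩
    exact (AddCircle.equivIco (1 : ℝ) 0).symm_apply_apply x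
  have htE : t ∉ E := fun h => hx ⟨t, h, rfl⟩
  obtain ⟨I, hIP, htI⟩ := hcov ht
  have hJ : (I ∩ Set.Ico (0 : ℝ) 1).OrdConnected := (hI I hIP).inter Set.ordConnected_Ico
  have htJ : t ∈ I ∩ Set.Ico (0 : ℝ) 1 := ⟨htI, ht⟩
  have hb : BddBelow (I ∩ Set.Ico (0 : ℝ) 1) := ⟨0, fun s hs => hs.2.1⟩
  have ha : BddAbove (I ∩ Set.Ico (0 : ℝ) 1) := ⟨1, fun s hs => hs.2.2.le⟩
  have h1 : sInf (I ∩ Set.Ico (0 : ℝ) 1) < t :=
    lt_of_le_of_ne (csInf_le hb htJ) fun h => htE (Or.inr (Or.inl ⟨I, hIP, h⟩))
  have h2 : t < sSup (I ∩ Set.Ico (0 : ℝ) 1) :=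
    lt_of_le_of_ne (le_csSup ha htJ) fun h => htE (Or.inr (Or.inr ⟨I, hIP, h.symm⟩))
  obtain ⟨a, haJ, hat⟩ := exists_lt_of_csInf_lt ⟨t, htJ⟩ h1
  obtain ⟨b, hbJ, htb⟩ := exists_lt_of_lt_csSup ⟨t, htJ⟩ h2
  have hev : ∀ᶠ s in 𝓝 t, s ∈ I ∩ Set.Ico (0 : ℝ) 1 := by
    filter_upwards [Ioo_mem_nhds hat htb] with s hs
    exact hJ.out haJ hbJ ⟨hs.1.le, hs.2.le⟩
  obtain ⟨c, hc⟩ := hf I hIP
  refine ⟨c, ?_⟩
  have hn : 𝓝 (t : S) = Filter.map (fun s : ℝ => (s : S)) (𝓝 t) := QuotientAddGroup.nhds_eq _ t
  rcases hc with hc | hc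
  · left
    rw [hn, eventually_map]
    exact hev.mono hc
  · right
    rw [hn, eventually_map]
    exact hev.mono hc

/-- The group of all piecewise isometric permutations of the circle (all representatives of
interval exchanges with flips). -/
def FlipPerm : Subgroup (Equiv.Perm S) where
  carrier := {f | PiecewiseIsom f}
  one_mem' := ⟨∅, Set.finite_empty, fun x _ => ⟨0, Or.inl (by simp)⟩⟩
  mul_mem' := by
    rintro f g ⟨F, hF, hf⟩ ⟨G, hG, hg⟩
    refine ⟨G ∪ g ⁻¹' F, hG.union (hF.preimage g.injective.injOn), fun x hx => ?_⟩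
    simp only [Set.mem_union, Set.mem_preimage, not_or] at hx
    exact LocIsom.comp (f := f) (g := g) (hg x hx.1) (hf _ hx.2)
  inv_mem' := by
    rintro f ⟨F, hF, hf⟩
    refine ⟨f '' F, hF.image _, fun x hx => ?_⟩
    have : f.symm x ∉ F := fun h => hx ⟨_, h, by simp⟩
    have h2 := (hf _ this).symm
    rw [Equiv.apply_symm_apply] at h2
    exact h2

/-- The permutations in `FlipPerm` with finite support; every finitely supported permutation of
the circle is one (`finSupp_all`). -/
def FinSupp : Subgroup FlipPerm where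
  carrier := {f | {x | (f : Equiv.Perm S) x ≠ x}.Finite}
  one_mem' := by simp
  mul_mem' := by
    intro f g hf hg
    refine (hf.union hg).subset ?_
    intro x hx
    simp only [Set.mem_union, Set.mem_ofPred_eq] at hx ⊢
    by_contra h
    push Not at h
    apply hx
    rw [Subgroup.coe_mul, Equiv.Perm.mul_apply, h.2, h.1]
  inv_mem' := by
    intro f hf
    refine hf.subset ?_
    intro x hx
    simp only [Set.mem_ofPred_eq] at hx ⊢
    intro h
    apply hx
    rw [Subgroup.coe_inv, Equiv.Perm.inv_eq_iff_eq, h]

instance : FinSupp.Normal where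
  conj_mem := by
    intro n hn g
    have : {x | ((g * n * g⁻¹ : FlipPerm) : Equiv.Perm S) x ≠ x} ⊆
        (g : Equiv.Perm S) '' {x | (n : Equiv.Perm S) x ≠ x} := by
      intro x hx
      refine ⟨(g : Equiv.Perm S)⁻¹ x, ?_, by simp⟩
      simp only [Set.mem_ofPred_eq] at hx ⊢
      intro h
      apply hx
      simp only [Subgroup.coe_mul, Subgroup.coe_inv, Equiv.Perm.mul_apply]
      rw [h]; simp
    exact (Set.Finite.image _ hn).subset this

/-- Every finitely supported permutation of the circle lies in `FlipPerm`. -/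
theorem finSupp_all (f : Equiv.Perm S) (hf : {x | f x ≠ x}.Finite) : f ∈ FlipPerm := by
  refine ⟨_, hf, fun x hx => ⟨0, Or.inl ?_⟩⟩
  have : {x | f x ≠ x}ᶜ ∈ 𝓝 x := hf.isClosed.isOpen_compl.mem_nhds hx
  filter_upwards [this] with y hy
  simpa using hy

/-- The group `IET^⋈` of interval exchanges with flips: piecewise isometric permutations of the
circle modulo finitely supported permutations. -/
def IETFlip : Type := FlipPerm ⧸ FinSupp

instance groupIETFlip : Group IETFlip := QuotientGroup.Quotient.group FinSupp

/-- The group of all permutations `f` of the circle such that `f` and its inverse are Lebesgue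
measurable and `f` preserves Lebesgue measure. -/
def MeasPerm : Subgroup (Equiv.Perm S) where
  carrier := {f | (∀ A : Set S, NullMeasurableSet A volume →
      NullMeasurableSet (f ⁻¹' A) volume ∧ NullMeasurableSet (f.symm ⁻¹' A) volume ∧
        volume (f ⁻¹' A) = volume A)}
  one_mem' := by
    intro A hA
    exact ⟨hA, hA, rfl⟩
  mul_mem' := by
    intro f g hf hg A hA
    obtain ⟨f1, f2, f3⟩ := hf A hA
    refine ⟨(hg _ f1).1, (hf _ (hg A hA).2.1).2.1, ?_⟩
    have := (hg _ f1).2.2
    rw [f3] at this
    exact this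
  inv_mem' := by
    intro f hf A hA
    obtain ⟨f1, f2, f3⟩ := hf A hA
    refine ⟨f2, f1, ?_⟩
    have h := (hf _ f2).2.2
    have e : f ⁻¹' (f.symm ⁻¹' A) = A := by
      ext x; simp
    rw [e] at h
    exact h.symm

/-- The normal subgroup of those permutations that agree with the identity almost everywhere. -/
def Null : Subgroup MeasPerm where
  carrier := {f | ∀ᵐ x ∂(volume : Measure S), (f : Equiv.Perm S) x = x}
  one_mem' := by simp
  mul_mem' := by
    intro f g hf hg
    simp only [Set.mem_ofPred_eq] at hf hg ⊢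
    filter_upwards [hf, hg] with x h1 h2
    rw [Subgroup.coe_mul, Equiv.Perm.mul_apply, h2, h1]
  inv_mem' := by
    intro f hf
    simp only [Set.mem_ofPred_eq] at hf ⊢
    filter_upwards [hf] with x h1
    rw [Subgroup.coe_inv, Equiv.Perm.inv_eq_iff_eq, h1]

instance : Null.Normal where
  conj_mem := by
    intro n hn g
    have hn' : volume {x | ¬ (n : Equiv.Perm S) x = x} = 0 := hn
    change volume {x | ¬ ((g * n * g⁻¹ : MeasPerm) : Equiv.Perm S) x = x} = 0
    have h1 : NullMeasurableSet {x | ¬ (n : Equiv.Perm S) x = x} volume :=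
      NullMeasurableSet.of_null hn'
    have h2 := (g⁻¹).2 _ h1
    refine measure_mono_null ?_ (h2.2.2.trans hn')
    intro x hx h
    apply hx
    simp only [Subgroup.coe_mul, Subgroup.coe_inv, Equiv.Perm.mul_apply] at h ⊢
    rw [h]; simp

/-- The group `Ĝ` of measure preserving Lebesgue bimeasurable permutations of the circle. -/
def Ghat : Type := MeasPerm

instance groupGhat : Group Ghat := Subgroup.toGroup MeasPerm

/-- The quotient group `G = Ĝ/N`. -/
def G : Type := MeasPerm ⧸ Null

instance groupG : Group G := QuotientGroup.Quotient.group Null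

/-- The quotient map `p : Ĝ → G`. -/
def p : Ghat →* G := QuotientGroup.mk' Null

/-! ### Piecewise isometric permutations preserve Lebesgue measure -/

theorem aux_add (y z c : S) (h : y = z + c) : y + -c = z := by
  subst h; abel

theorem aux_neg (y z c : S) (h : y = -z + c) : -y + c = z := by
  subst h; abel

theorem map_restrict {f : Equiv.Perm S} (hf : Measurable f) {x : S}
    (h : LocIsom f.symm x) :
    ∃ U : Set S, IsOpen U ∧ x ∈ U ∧
      (Measure.map f volume).restrict U = (volume : Measure S).restrict U := by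
  obtain ⟨c, h | h⟩ := h
  · obtain ⟨U, hU, hUo, hxU⟩ := eventually_nhds_iff.1 h
    refine ⟨U, hUo, hxU, ?_⟩
    ext A hA
    rw [Measure.restrict_apply hA, Measure.restrict_apply hA,
      Measure.map_apply hf (hA.inter hUo.measurableSet)]
    have e : f ⁻¹' (A ∩ U) = (fun w => w + -c) ⁻¹' (A ∩ U) := by
      ext y
      constructor
      · intro hy
        have hy' : f y ∈ A ∩ U := hy
        have := hU (f y) hy'.2
        rw [Equiv.symm_apply_apply] at this
        change y + -c ∈ A ∩ U
        rw [aux_add _ _ _ this]; exact hy'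
      · intro hy
        have hy' : y + -c ∈ A ∩ U := hy
        have := hU _ hy'.2
        rw [Equiv.symm_apply_eq] at this
        change f y ∈ A ∩ U
        have e3 : y + -c + c = y := by abel
        rw [e3] at this
        rw [← this]
        exact hy'
    rw [e, measure_preimage_add_right]
  · obtain ⟨U, hU, hUo, hxU⟩ := eventually_nhds_iff.1 h
    refine ⟨U, hUo, hxU, ?_⟩
    ext A hA
    rw [Measure.restrict_apply hA, Measure.restrict_apply hA,
      Measure.map_apply hf (hA.inter hUo.measurableSet)]
    have e : f ⁻¹' (A ∩ U) = (fun w => -w) ⁻¹' ((fun w => w + c) ⁻¹' (A ∩ U)) := by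
      ext y
      constructor
      · intro hy
        have hy' : f y ∈ A ∩ U := hy
        have := hU (f y) hy'.2
        rw [Equiv.symm_apply_apply] at this
        change -y + c ∈ A ∩ U
        rw [aux_neg _ _ _ this]; exact hy'
      · intro hy
        have hy' : -y + c ∈ A ∩ U := hy
        have := hU _ hy'.2
        rw [Equiv.symm_apply_eq] at this
        change f y ∈ A ∩ U
        have e3 : -(-y + c) + c = y := by abel
        rw [e3] at this
        rw [← this]
        exact hy'
    rw [e]
    have := Measure.measure_preimage_neg (volume : Measure S) ((fun w => w + c) ⁻¹' (A ∩ U))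
    rw [measure_preimage_add_right] at this
    exact this

/-- A piecewise isometric map is Borel measurable. -/
theorem PiecewiseIsom.measurable {f : S → S} (hf : PiecewiseIsom f) : Measurable f := by
  obtain ⟨F, hF, hf⟩ := hf
  refine measurable_of_restrict_of_restrict_compl hF.measurableSet ?_ ?_
  · have : Countable F := hF.countable.to_subtype
    exact measurable_of_countable _
  · refine Continuous.measurable ?_
    rw [continuous_iff_continuousAt]
    intro x
    exact ((hf x x.2).continuousAt).comp continuous_subtype_val.continuousAt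

theorem map_eq {f : Equiv.Perm S} (hf : f ∈ FlipPerm) :
    Measure.map f (volume : Measure S) = volume := by
  have hm : Measurable f := PiecewiseIsom.measurable hf
  obtain ⟨F, hF, hs⟩ := FlipPerm.inv_mem hf
  have hc : ∀ x : (Fᶜ : Set S), ∃ U : Set S, IsOpen U ∧ x.1 ∈ U ∧
      (Measure.map f volume).restrict U = (volume : Measure S).restrict U :=
    fun x => map_restrict hm (hs x.1 x.2)
  choose U hUo hxU hU using hc
  obtain ⟨T, hTc, hT⟩ := TopologicalSpace.isOpen_iUnion_countable U hUo
  have h1 : (Measure.map f volume).restrict (⋃ i, U i) =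
      (volume : Measure S).restrict (⋃ i, U i) := by
    rw [← hT, Measure.restrict_biUnion_congr hTc]
    intro i _
    exact hU i
  have h2 : Fᶜ ⊆ ⋃ i, U i := fun x hx => Set.mem_iUnion.2 ⟨⟨x, hx⟩, hxU ⟨x, hx⟩⟩
  have h3 : (volume : Measure S) (⋃ i, U i)ᶜ = 0 := by
    refine measure_mono_null (t := F) ?_ (hF.measure_zero _)
    intro x hx
    by_contra h
    exact hx (h2 h)
  have h4 : (Measure.map f volume) (⋃ i, U i)ᶜ = 0 := by
    refine measure_mono_null (t := F) ?_ ?_
    · intro x hx
      by_contra h
      exact hx (h2 h)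
    · rw [Measure.map_apply hm hF.measurableSet]
      exact (hF.preimage f.injective.injOn).measure_zero _
  have e1 := Measure.restrict_eq_self_of_ae_mem (μ := (volume : Measure S)) (s := ⋃ i, U i) h3
  have e2 := Measure.restrict_eq_self_of_ae_mem (μ := Measure.map f (volume : Measure S))
    (s := ⋃ i, U i) h4
  rw [← e2, h1, e1]

theorem FlipPerm.measurePreserving {f : Equiv.Perm S} (hf : f ∈ FlipPerm) :
    MeasurePreserving f (volume : Measure S) volume :=
  ⟨PiecewiseIsom.measurable hf, map_eq hf⟩

/-- Representatives of interval exchanges with flips are Lebesgue bimeasurable and measure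
preserving. -/
theorem FlipPerm_le : FlipPerm ≤ MeasPerm := by
  intro f hf A hA
  have h1 := FlipPerm.measurePreserving hf
  have h2 : MeasurePreserving f.symm (volume : Measure S) volume :=
    FlipPerm.measurePreserving (FlipPerm.inv_mem hf)
  exact ⟨hA.preimage h1.quasiMeasurePreserving, hA.preimage h2.quasiMeasurePreserving,
    h1.measure_preimage hA⟩

/-- A finitely supported permutation is the identity almost everywhere. -/
theorem FinSupp_le : FinSupp ≤ Null.comap (Subgroup.inclusion FlipPerm_le) := by
  intro f hf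
  have : {x | (f : Equiv.Perm S) x ≠ x}.Finite := hf
  exact this.measure_zero _

/-- The canonical homomorphism from the group of interval exchanges with flips to the group of
measure preserving bimeasurable permutations modulo null sets; it is injective
(`ident_injective`), and this is the identification of the problem. -/
def ident : IETFlip →* G :=
  QuotientGroup.map FinSupp Null (Subgroup.inclusion FlipPerm_le) FinSupp_le

theorem finite_of_ae {f : S → S} (hf : PiecewiseIsom f)
    (h : ∀ᵐ x ∂(volume : Measure S), f x = x) : {x | f x ≠ x}.Finite := by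
  obtain ⟨F, hF, hf⟩ := hf
  refine hF.subset ?_
  intro x hx
  by_contra hxF
  apply hx
  have hc := (hf x hxF).continuousAt
  have hd : Dense {y : S | f y = y} := by
    have := Measure.dense_of_ae h
    exact this
  have h2 : (𝓝[{y : S | f y = y}] x).NeBot := mem_closure_iff_nhdsWithin_neBot.1 (hd x)
  have t1 : Tendsto f (𝓝[{y : S | f y = y}] x) (𝓝 (f x)) := hc.tendsto.mono_left nhdsWithin_le_nhds
  have t2 : Tendsto f (𝓝[{y : S | f y = y}] x) (𝓝 x) := by
    refine Tendsto.congr' (f₁ := fun y => y) ?_ (tendsto_id.mono_left nhdsWithin_le_nhds)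
    filter_upwards [self_mem_nhdsWithin] with y hy
    exact hy.symm
  exact tendsto_nhds_unique t1 t2

theorem ident_injective : Function.Injective ident := by
  have h : Function.Injective
      (QuotientGroup.map FinSupp Null (Subgroup.inclusion FlipPerm_le) FinSupp_le) := by
    rw [injective_iff_map_eq_one]
    intro g
    refine QuotientGroup.induction_on g fun f => ?_
    intro h
    rw [QuotientGroup.eq_one_iff]
    have h' : ((Subgroup.inclusion FlipPerm_le f : MeasPerm) : MeasPerm ⧸ Null) = 1 := h
    rw [QuotientGroup.eq_one_iff] at h'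
    exact finite_of_ae f.2 h'
  exact h

/-! ### Cardinalities -/

open Cardinal

theorem mk_S : #S = 𝔠 := by
  have : ¬ Countable S := by
    intro h
    have h0 : (volume : Measure S) Set.univ = 0 := Set.countable_univ.measure_zero _
    rw [UnitAddCircle.measure_univ] at h0
    exact one_ne_zero h0
  have e := PolishSpace.measurableEquivOfNotCountable (α := S) (β := ℝ) this
    (by rw [← Cardinal.mk_le_aleph0_iff, not_le, Cardinal.mk_real]; exact Cardinal.aleph0_lt_continuum)
  rw [Cardinal.mk_congr e.toEquiv, Cardinal.mk_real]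

/-- There is a null set with the cardinality of the continuum. -/
theorem exists_null : ∃ N : Set S, volume N = 0 ∧ #N = 𝔠 := by
  have hS : ¬ Countable S := by
    rw [← Cardinal.mk_le_aleph0_iff, not_le, mk_S]; exact Cardinal.aleph0_lt_continuum
  have hSS : ¬ Countable (S × S) := by
    rw [← Cardinal.mk_le_aleph0_iff, not_le, Cardinal.mk_prod, mk_S]
    simpa using Cardinal.aleph0_lt_continuum
  let e := PolishSpace.measurableEquivOfNotCountable (α := S) (β := S × S) hS hSS
  have hfst : Measurable (fun x : S => (e x).1) := measurable_fst.comp e.measurable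
  have hcount : Set.Countable {a : S | 0 < (volume : Measure S) ((fun x : S => (e x).1) ⁻¹' {a})} :=
    Measure.countable_meas_pos_of_disjoint_iUnion
      (fun a => hfst (measurableSet_singleton a))
      (fun a b hab => Disjoint.preimage _ (Set.disjoint_singleton.2 hab))
  have : ∃ a : S, ¬ 0 < (volume : Measure S) ((fun x : S => (e x).1) ⁻¹' {a}) := by
    by_contra hcon
    push Not at hcon
    apply hS
    rw [← Set.countable_univ_iff]
    exact hcount.mono fun a _ => hcon a
  obtain ⟨a, ha⟩ := this
  refine ⟨(fun x : S => (e x).1) ⁻¹' {a}, by simpa using ha, ?_⟩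
  have e2 : ((fun x : S => (e x).1) ⁻¹' {a} : Set S) ≃ S :=
    { toFun := fun x => (e x.1).2
      invFun := fun b => ⟨e.symm (a, b), by simp⟩
      left_inv := by
        rintro ⟨x, hx⟩
        have hx' : (e x).1 = a := hx
        apply Subtype.ext
        simp only
        rw [← hx', Prod.mk.eta, MeasurableEquiv.symm_apply_apply]
      right_inv := by
        intro b
        simp }
  rw [Cardinal.mk_congr e2, mk_S]

/-- The group of piecewise isometric permutations has at most continuum many elements. -/
theorem mk_flipPerm : #FlipPerm ≤ 𝔠 := by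
  classical
  obtain ⟨D, hDc, hDd⟩ := TopologicalSpace.exists_countable_dense S
  have hcount : Countable D := hDc.to_subtype
  choose F hF hloc using fun f : FlipPerm => f.2
  let code : FlipPerm → (Finset (S × S)) × (D → S) := fun f =>
    ((hF f).toFinset.image (fun x => (x, (f : Equiv.Perm S) x)), fun d => (f : Equiv.Perm S) d)
  have hinj : Function.Injective code := by
    intro f g hfg
    have h1 : (hF f).toFinset.image (fun x => (x, (f : Equiv.Perm S) x)) =
        (hF g).toFinset.image (fun x => (x, (g : Equiv.Perm S) x)) := congrArg Prod.fst hfg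
    have h2 : ∀ d : D, (f : Equiv.Perm S) d = (g : Equiv.Perm S) d :=
      fun d => congrFun (congrArg Prod.snd hfg) d
    have h3 : ∀ x, x ∈ F f → x ∈ F g ∧ (f : Equiv.Perm S) x = (g : Equiv.Perm S) x := by
      intro x hx
      have : (x, (f : Equiv.Perm S) x) ∈
          (hF f).toFinset.image (fun x => (x, (f : Equiv.Perm S) x)) :=
        Finset.mem_image.2 ⟨x, by simpa using hx, rfl⟩
      rw [h1, Finset.mem_image] at this
      obtain ⟨y, hy, hyx⟩ := this
      have hy1 : y = x := congrArg Prod.fst hyx
      subst hy1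
      exact ⟨by simpa using hy, (congrArg Prod.snd hyx).symm⟩
    have h4 : ∀ x, x ∈ F g → x ∈ F f := by
      intro x hx
      have : (x, (g : Equiv.Perm S) x) ∈
          (hF g).toFinset.image (fun x => (x, (g : Equiv.Perm S) x)) :=
        Finset.mem_image.2 ⟨x, by simpa using hx, rfl⟩
      rw [← h1, Finset.mem_image] at this
      obtain ⟨y, hy, hyx⟩ := this
      have hy1 : y = x := congrArg Prod.fst hyx
      subst hy1
      simpa using hy
    apply Subtype.ext
    ext x
    by_cases hx : x ∈ F f
    · exact (h3 x hx).2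
    · have hxg : x ∉ F g := fun h => hx (h4 x h)
      have cf := (hloc f x hx).continuousAt
      have cg := (hloc g x hxg).continuousAt
      have hne : (𝓝[D] x).NeBot := mem_closure_iff_nhdsWithin_neBot.1 (hDd x)
      have t1 : Tendsto (f : Equiv.Perm S) (𝓝[D] x) (𝓝 ((f : Equiv.Perm S) x)) :=
        cf.tendsto.mono_left nhdsWithin_le_nhds
      have t2 : Tendsto (f : Equiv.Perm S) (𝓝[D] x) (𝓝 ((g : Equiv.Perm S) x)) := by
        refine Tendsto.congr' ?_ (cg.tendsto.mono_left nhdsWithin_le_nhds)
        filter_upwards [self_mem_nhdsWithin] with y hy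
        exact (h2 ⟨y, hy⟩).symm
      exact tendsto_nhds_unique t1 t2
  refine (Cardinal.mk_le_of_injective hinj).trans ?_
  rw [Cardinal.mk_prod, Cardinal.lift_id, Cardinal.lift_id]
  have i1 : Infinite (S × S) := by
    rw [← Cardinal.aleph0_le_mk_iff, Cardinal.mk_prod, Cardinal.lift_id, mk_S,
      Cardinal.continuum_mul_self]
    exact Cardinal.aleph0_le_continuum
  have c1 : #(Finset (S × S)) = 𝔠 := by
    rw [Cardinal.mk_finset_of_infinite, Cardinal.mk_prod, Cardinal.lift_id, mk_S,
      Cardinal.continuum_mul_self]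
  have c2 : #(D → S) ≤ 𝔠 := by
    rw [← Cardinal.power_def, mk_S]
    calc 𝔠 ^ #D ≤ 𝔠 ^ ℵ₀ :=
          Cardinal.power_le_power_left Cardinal.continuum_ne_zero (Cardinal.mk_le_aleph0)
      _ = 𝔠 := Cardinal.continuum_power_aleph0
  calc #(Finset (S × S)) * #(D → S) ≤ 𝔠 * 𝔠 := mul_le_mul' c1.le c2
    _ = 𝔠 := Cardinal.continuum_mul_self

/-! ### The action on filters -/

/-- The set of all filters obtained by pushing forward the filter of punctured neighbourhoods
of a point by a piecewise isometric permutation. -/
def W : Set (Filter S) := {w | ∃ (f : FlipPerm) (x : S), w = Filter.map (f : Equiv.Perm S) (𝓝[≠] x)}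

/-- The action of piecewise isometric permutations on `W`. -/
def act : FlipPerm →* Equiv.Perm W where
  toFun f :=
    { toFun := fun w => ⟨Filter.map (f : Equiv.Perm S) w.1, by
        obtain ⟨g, x, h⟩ := w.2
        exact ⟨f * g, x, by rw [h, Filter.map_map]; rfl⟩⟩
      invFun := fun w => ⟨Filter.map ((f⁻¹ : FlipPerm) : Equiv.Perm S) w.1, by
        obtain ⟨g, x, h⟩ := w.2
        exact ⟨f⁻¹ * g, x, by rw [h, Filter.map_map]; rfl⟩⟩
      left_inv := by
        intro w
        apply Subtype.ext
        simp only [Filter.map_map]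
        convert Filter.map_id
        ext x
        simp
      right_inv := by
        intro w
        apply Subtype.ext
        simp only [Filter.map_map]
        convert Filter.map_id
        ext x
        simp }
  map_one' := by
    ext1 w
    apply Subtype.ext
    simp
  map_mul' := by
    intro f g
    ext1 w
    apply Subtype.ext
    simp only [Subgroup.coe_mul, Equiv.coe_fn_mk, Equiv.Perm.mul_apply, Filter.map_map]
    rfl

theorem act_apply (f : FlipPerm) (w : W) :
    ((act f w : W) : Filter S) = Filter.map (f : Equiv.Perm S) w.1 := rfl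

/-- Finitely supported permutations act trivially. -/
theorem act_finSupp (f : FlipPerm) (hf : f ∈ FinSupp) : act f = 1 := by
  ext1 w
  apply Subtype.ext
  rw [act_apply]
  obtain ⟨g, x, h⟩ := w.2
  have hfin : {y | (f : Equiv.Perm S) y ≠ y}.Finite := hf
  rw [Equiv.Perm.one_apply, h, Filter.map_map]
  apply Filter.map_congr
  have hfin2 : ((g : Equiv.Perm S) ⁻¹' {y | (f : Equiv.Perm S) y ≠ y}).Finite :=
    hfin.preimage (g : Equiv.Perm S).injective.injOn
  have hmem : ((g : Equiv.Perm S) ⁻¹' {y | (f : Equiv.Perm S) y ≠ y})ᶜ ∈ 𝓝[≠] x := by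
    have h1 : (((g : Equiv.Perm S) ⁻¹' {y | (f : Equiv.Perm S) y ≠ y}) \ {x})ᶜ ∈ 𝓝 x :=
      (hfin2.subset Set.sdiff_subset).isClosed.isOpen_compl.mem_nhds (by simp)
    filter_upwards [mem_nhdsWithin_of_mem_nhds h1, self_mem_nhdsWithin] with y hy1 hy2 hy3
    exact hy1 ⟨hy3, hy2⟩
  filter_upwards [hmem] with y hy
  simpa using hy

/-- The punctured neighbourhoods of a point, as an element of `W`. -/
def psi (x : S) : W := ⟨𝓝[≠] x, 1, x, by simp⟩

instance nebot_punctured (x : S) : (𝓝[≠] x).NeBot := by
  have h : (volume : Measure S) {x} = 0 := measure_singleton x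
  have hd : Dense ({x}ᶜ : Set S) := Measure.dense_of_ae (μ := (volume : Measure S)) (by
    rw [ae_iff]; simp)
  exact mem_closure_iff_nhdsWithin_neBot.1 (hd x)

theorem psi_injective : Function.Injective psi := by
  intro x y h
  have h' : 𝓝[≠] x = 𝓝[≠] y := congrArg Subtype.val h
  have h1 : Tendsto (fun z : S => z) (𝓝[≠] x) (𝓝 x) := tendsto_id.mono_left nhdsWithin_le_nhds
  have h2 : Tendsto (fun z : S => z) (𝓝[≠] x) (𝓝 y) := by
    rw [h']; exact tendsto_id.mono_left nhdsWithin_le_nhds
  exact tendsto_nhds_unique h1 h2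

/-- Off the finitely many bad points, a piecewise isometric permutation acts on punctured
neighbourhoods as it acts on points. -/
theorem act_psi (f : FlipPerm) (x : S) (h : LocIsom (f : Equiv.Perm S) x) :
    act f (psi x) = psi ((f : Equiv.Perm S) x) := by
  apply Subtype.ext
  change Filter.map (f : Equiv.Perm S) (𝓝[≠] x) = 𝓝[≠] ((f : Equiv.Perm S) x)
  obtain ⟨c, h | h⟩ := h
  · rw [Filter.map_congr (h.filter_mono nhdsWithin_le_nhds), h.self_of_nhds]
    exact (Homeomorph.addRight c).map_punctured_nhds_eq x
  · rw [Filter.map_congr (h.filter_mono nhdsWithin_le_nhds), h.self_of_nhds]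
    exact ((Homeomorph.neg S).trans (Homeomorph.addRight c)).map_punctured_nhds_eq x

theorem mk_W : #W ≤ 𝔠 := by
  have hs : Function.Surjective (fun p : FlipPerm × S =>
      (⟨Filter.map (p.1 : Equiv.Perm S) (𝓝[≠] p.2), p.1, p.2, rfl⟩ : W)) := by
    rintro ⟨w, f, x, h⟩
    exact ⟨(f, x), Subtype.ext h.symm⟩
  refine (Cardinal.mk_le_of_surjective hs).trans ?_
  rw [Cardinal.mk_prod, Cardinal.lift_id, Cardinal.lift_id, mk_S]
  calc #FlipPerm * 𝔠 ≤ 𝔠 * 𝔠 := mul_le_mul' mk_flipPerm le_rfl
    _ = 𝔠 := Cardinal.continuum_mul_self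

/-- A bijection of the circle onto `W` which is `psi` off a null set. -/
theorem exists_bij : ∃ e : S ≃ W, ∀ᵐ x ∂(volume : Measure S), e x = psi x := by
  classical
  obtain ⟨N, hN, hcard⟩ := exists_null
  have h1 : #N = #((psi '' Nᶜ)ᶜ : Set W) := by
    apply le_antisymm
    · have : psi '' N ⊆ (psi '' Nᶜ)ᶜ := by
        rintro _ ⟨x, hx, rfl⟩ ⟨y, hy, hyx⟩
        exact hy (by rw [psi_injective hyx]; exact hx)
      calc #N = #(psi '' N : Set W) := (Cardinal.mk_image_eq psi_injective).symm
        _ ≤ _ := Cardinal.mk_le_mk_of_subset this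
    · rw [hcard]
      exact (Cardinal.mk_subtype_le _).trans mk_W
  obtain ⟨k⟩ := Cardinal.eq.1 h1
  let e : S ≃ W :=
    (Equiv.Set.sumCompl N).symm.trans
      ((Equiv.sumComm _ _).trans
        ((Equiv.sumCongr (Equiv.Set.image psi Nᶜ psi_injective) k).trans
          (Equiv.Set.sumCompl (psi '' Nᶜ))))
  refine ⟨e, ?_⟩
  have : ∀ᵐ x ∂(volume : Measure S), x ∉ N := by
    rw [ae_iff]; simpa using hN
  filter_upwards [this] with x hx
  simp only [e, Equiv.trans_apply]
  rw [Equiv.Set.sumCompl_symm_apply_of_notMem hx]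
  simp

theorem mem_of_ae (f g : Equiv.Perm S) (hg : g ∈ MeasPerm)
    (h1 : ∀ᵐ x ∂(volume : Measure S), f x = g x)
    (h2 : ∀ᵐ x ∂(volume : Measure S), f⁻¹ x = g⁻¹ x) : f ∈ MeasPerm := by
  intro A hA
  have hf := hg A hA
  have e1 : f ⁻¹' A =ᵐ[volume] g ⁻¹' A := by
    filter_upwards [h1] with x hx
    change (f x ∈ A) = (g x ∈ A)
    rw [hx]
  have e2 : f.symm ⁻¹' A =ᵐ[volume] g.symm ⁻¹' A := by
    filter_upwards [h2] with x hx
    change (f⁻¹ x ∈ A) = (g⁻¹ x ∈ A)
    rw [hx]
  exact ⟨hf.1.congr e1.symm, hf.2.1.congr e2.symm, by rw [measure_congr e1, hf.2.2]⟩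

/-- The transported action. -/
noncomputable def lift0 (e : S ≃ W) : FlipPerm →* Equiv.Perm S :=
  (Equiv.permCongrHom e.symm).toMonoidHom.comp act

theorem lift0_apply (e : S ≃ W) (f : FlipPerm) (x : S) :
    lift0 e f x = e.symm (act f (e x)) := rfl

theorem lift0_ae (e : S ≃ W) (he : ∀ᵐ x ∂(volume : Measure S), e x = psi x) (f : FlipPerm) :
    ∀ᵐ x ∂(volume : Measure S), lift0 e f x = (f : Equiv.Perm S) x := by
  obtain ⟨F, hF, hloc⟩ := f.2
  have h1 : ∀ᵐ x ∂(volume : Measure S), x ∉ F := by
    rw [ae_iff]; simpa using hF.measure_zero volume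
  have hq := (FlipPerm.measurePreserving f.2).quasiMeasurePreserving
  have h2 := hq.ae he
  filter_upwards [h1, h2, he] with x hx1 hx2 hx3
  have h4 := act_psi f x (hloc x hx1)
  rw [lift0_apply, hx3, h4, ← hx2]
  exact Equiv.symm_apply_apply e _

theorem lift0_mem (e : S ≃ W) (he : ∀ᵐ x ∂(volume : Measure S), e x = psi x) (f : FlipPerm) :
    lift0 e f ∈ MeasPerm := by
  have h3 := lift0_ae e he f⁻¹
  refine mem_of_ae _ (f : Equiv.Perm S) (FlipPerm_le f.2) (lift0_ae e he f) ?_
  rw [← map_inv]
  exact h3

theorem lift0_finSupp (e : S ≃ W) (f : FlipPerm) (hf : f ∈ FinSupp) : lift0 e f = 1 := by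
  ext x
  rw [lift0_apply, act_finSupp f hf, Equiv.Perm.one_apply, Equiv.symm_apply_apply,
    Equiv.Perm.one_apply]

/-- **Interval exchanges with flips have a measurable point realization.**
The quotient map `p` from the group `Ĝ` of measure preserving Lebesgue bimeasurable
permutations of the circle to `G = Ĝ/N` splits over the group `IET^⋈` of interval
exchanges with flips: there is a group homomorphism `σ` from `IET^⋈` to `Ĝ` such that
`p (σ g)` is, for every `g`, the class `ident g` of `g` modulo null sets.
(The identification `ident` is injective by `ident_injective`.) -/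
theorem result : ∃ σ : IETFlip →* Ghat, ∀ g : IETFlip, p (σ g) = ident g := by
  obtain ⟨e, he⟩ := exists_bij
  have hker : FinSupp ≤ ((lift0 e).codRestrict MeasPerm (lift0_mem e he)).ker := by
    intro f hf
    rw [MonoidHom.mem_ker]
    apply Subtype.ext
    exact lift0_finSupp e f hf
  let τ : FlipPerm ⧸ FinSupp →* MeasPerm :=
    QuotientGroup.lift FinSupp ((lift0 e).codRestrict MeasPerm (lift0_mem e he)) hker
  have key : ∀ g : FlipPerm ⧸ FinSupp, (QuotientGroup.mk' Null) (τ g) =
      QuotientGroup.map FinSupp Null (Subgroup.inclusion FlipPerm_le) FinSupp_le g := by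
    intro g
    refine QuotientGroup.induction_on g fun f => ?_
    change (((lift0 e).codRestrict MeasPerm (lift0_mem e he) f : MeasPerm) : MeasPerm ⧸ Null) =
      ((Subgroup.inclusion FlipPerm_le f : MeasPerm) : MeasPerm ⧸ Null)
    rw [QuotientGroup.eq]
    change ∀ᵐ x ∂(volume : Measure S), ((lift0 e f)⁻¹ * (f : Equiv.Perm S)) x = x
    filter_upwards [lift0_ae e he f] with x hx
    rw [Equiv.Perm.mul_apply, Equiv.Perm.inv_eq_iff_eq]
    exact hx.symm
  exact ⟨τ, key⟩

end Pool.Agent.Results.MP_83934b_an.MeasurableLift
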